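import Pool.Agent.H17.AH.TargetsC
import Pool.Agent.H17.BO.TargetsC
import Pool.Agent.H27.LV.Gen

/-!
# MP_70ba79_ag: the algebraic theorem in the plane (row TERH of the board `ahy_modules`)
-/

set_option autoImplicit false

namespace Pool.Agent.H59.AH

open MvPolynomial SC Pool.Agent.H27.LV Pool.Agent.H17.VG Pool.Agent.H17.BO Pool.Agent.H17.AH

section Fnl

variable {K : Type} [Field K] {n d : ℕ}

private lemma fnl_add (y : Mon (n + 1) d → K) (G H : MvPolynomial (Fin (n + 1)) K) :
    fnl y (G + H) = fnl y G + fnl y H := by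
  unfold fnl
  rw [← Finset.sum_add_distrib]
  refine Finset.sum_congr rfl fun M _ => ?_
  rw [coeff_add]
  ring

private lemma fnl_C (y : Mon (n + 1) d → K) (c : K) (G : MvPolynomial (Fin (n + 1)) K) :
    fnl y (C c * G) = c * fnl y G := by
  unfold fnl
  rw [Finset.mul_sum]
  refine Finset.sum_congr rfl fun M _ => ?_
  rw [coeff_C_mul]
  ring

private lemma fnl_zero (y : Mon (n + 1) d → K) : fnl y (0 : MvPolynomial (Fin (n + 1)) K) = 0 := by
  unfold fnl
  simp

private lemma fnl_sum (y : Mon (n + 1) d → K) {ι : Type} (s : Finset ι)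
    (G : ι → MvPolynomial (Fin (n + 1)) K) : fnl y (∑ i ∈ s, G i) = ∑ i ∈ s, fnl y (G i) := by
  classical
  induction s using Finset.induction_on with
  | empty => simp [fnl_zero]
  | insert a s ha ih => rw [Finset.sum_insert ha, Finset.sum_insert ha, fnl_add, ih]

private lemma fnl_lin (y : Mon (n + 1) d → K) (m : Fin (n + 1) → K)
    (G : MvPolynomial (Fin (n + 1)) K) : fnl y (lin m * G) = ∑ t, m t * fnl y (X t * G) := by
  unfold lin
  rw [Finset.sum_mul, fnl_sum]
  refine Finset.sum_congr rfl fun t _ => ?_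
  rw [mul_assoc, fnl_C]

/-- linear combinations of functionals -/
private lemma fnl_comb (y : Fin 2 → Mon (n + 1) d → K) (B : Matrix (Fin 2) (Fin 2) K) (b : Fin 2)
    (G : MvPolynomial (Fin (n + 1)) K) :
    fnl (fun M => ∑ c, y c M * B c b) G = ∑ c, fnl (y c) G * B c b := by
  unfold fnl
  simp_rw [Finset.sum_mul]
  rw [Finset.sum_comm]
  refine Finset.sum_congr rfl fun c _ => Finset.sum_congr rfl fun M _ => ?_
  ring

/-- linear combinations of the linear forms -/
private lemma fnl_mcomb (y : Mon (n + 1) d → K) (A : Matrix (Fin 2) (Fin 2) K)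
    (m : Fin 2 → Fin (n + 1) → K) (i : Fin 2) (G : MvPolynomial (Fin (n + 1)) K) :
    fnl y (lin (fun t => ∑ j, A i j * m j t) * G) = ∑ j, A i j * fnl y (lin (m j) * G) := by
  rw [fnl_lin]
  simp_rw [fnl_lin, Finset.sum_mul, Finset.mul_sum]
  rw [Finset.sum_comm]
  refine Finset.sum_congr rfl fun j _ => Finset.sum_congr rfl fun t _ => ?_
  ring

private lemma indep_comb {ι : Type} (A : Matrix (Fin 2) (Fin 2) K) (hA : A.det ≠ 0)
    {m : Fin 2 → ι → K} (hm : LinearIndependent K m) :
    LinearIndependent K (fun i => fun t => ∑ j, A i j * m j t) := by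
  rw [Fintype.linearIndependent_iff] at hm ⊢
  intro g hg
  have h1 : ∀ j, ∑ i, g i * A i j = 0 := by
    apply hm
    ext t
    have h2 := congrFun hg t
    simp only [Finset.sum_apply, Pi.smul_apply, smul_eq_mul, Pi.zero_apply] at h2 ⊢
    rw [← h2]
    simp_rw [Finset.sum_mul, Finset.mul_sum]
    rw [Finset.sum_comm]
    refine Finset.sum_congr rfl fun j _ => Finset.sum_congr rfl fun t _ => ?_
    ring
  have h3 : Matrix.vecMul g A = 0 := by
    ext j
    exact h1 j
  have h4 := Matrix.eq_zero_of_vecMul_eq_zero hA h3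
  exact fun i => congrFun h4 i

private lemma orth_comb {m : Fin 2 → Fin (n + 1) → K} {x : Fin (n + 1) → K}
    (A : Matrix (Fin 2) (Fin 2) K) (h : ∀ i, ∑ t, m i t * x t = 0) (i : Fin 2) :
    ∑ t, (∑ j, A i j * m j t) * x t = 0 := by
  simp_rw [Finset.sum_mul]
  rw [Finset.sum_comm]
  refine Finset.sum_eq_zero fun j _ => ?_
  have : ∑ t, A i j * m j t * x t = A i j * ∑ t, m j t * x t := by
    rw [Finset.mul_sum]
    exact Finset.sum_congr rfl fun t _ => by ring
  rw [this, h j, mul_zero]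

private lemma eta2 {α : Type} (m : Fin 2 → α) : ![m 0, m 1] = m := by
  funext i
  fin_cases i <;> rfl

end Fnl

section Up

variable {k L : Type} [Field k] [Field L] [Algebra k L] {n : ℕ}

private lemma up_add (G H : MvPolynomial (Fin (n + 1)) k) : up L (G + H) = up L G + up L H :=
  map_add _ _ _

private lemma up_mul (G H : MvPolynomial (Fin (n + 1)) k) : up L (G * H) = up L G * up L H :=
  map_mul _ _ _

private lemma up_C (c : k) : up L (C c : MvPolynomial (Fin (n + 1)) k) = C (algebraMap k L c) :=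
  MvPolynomial.map_C _ _

private lemma up_X (t : Fin (n + 1)) : up L (X t : MvPolynomial (Fin (n + 1)) k) = X t :=
  MvPolynomial.map_X _ _

private lemma frm_add {e : ℕ} (q q' : Mon (n + 1) e → k) : frm (q + q') = frm q + frm q' := by
  unfold frm
  rw [← Finset.sum_add_distrib]
  refine Finset.sum_congr rfl fun M _ => ?_
  rw [Pi.add_apply, map_add]
  ring

private lemma frm_smul {e : ℕ} (c : k) (q : Mon (n + 1) e → k) : frm (c • q) = C c * frm q := by
  unfold frm
  rw [Finset.mul_sum]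
  refine Finset.sum_congr rfl fun M _ => ?_
  rw [Pi.smul_apply, smul_eq_mul, map_mul]
  ring

private lemma fnl_lineta {d : ℕ} (y : Mon (n + 1) d → L) (m : Fin (n + 1) → L)
    (η : Fin (n + 1) → k) (R : MvPolynomial (Fin (n + 1)) k) :
    fnl y (lin m * up L (lin η * R)) =
      ∑ t, algebraMap k L (η t) * fnl y (lin m * up L (X t * R)) := by
  have h0 : up L (lin η * R) = ∑ t, C (algebraMap k L (η t)) * up L (X t * R) := by
    unfold lin up
    rw [Finset.sum_mul, map_sum]
    refine Finset.sum_congr rfl fun t _ => ?_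
    rw [mul_assoc, map_mul, MvPolynomial.map_C]
  have h : lin m * up L (lin η * R) = ∑ t, C (algebraMap k L (η t)) *
      (lin m * up L (X t * R)) := by
    rw [h0, Finset.mul_sum]
    exact Finset.sum_congr rfl fun t _ => by ring
  rw [h, fnl_sum]
  exact Finset.sum_congr rfl fun t _ => fnl_C _ _ _

private lemma x_ne {e m : ℕ} {g : Fin m → MvPolynomial (Fin (n + 1)) k}
    (hg : ∀ a, (g a).IsHomogeneous (e + 1)) {x : Fin (n + 1) → L} {w : Fin m → L}
    (h : ∑ a, w a * eval x (up L (g a)) ≠ 0) : x ≠ 0 := by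
  rintro rfl
  apply h
  refine Finset.sum_eq_zero fun a _ => ?_
  have h1 : eval (0 : Fin (n + 1) → L) (up L (g a)) = 0 := by
    have h2 : (up L (g a)).IsHomogeneous (e + 1) := (hg a).map _
    rw [MvPolynomial.eval_zero, MvPolynomial.constantCoeff_eq]
    exact h2.coeff_eq_zero (by simp)
  rw [h1, mul_zero]

end Up

private lemma comm_lem {k L : Type} [Field k] [Field L] [Algebra k L] {n d : ℕ}
    (y : Mon (n + 1) d → L) (m₀ m₁ : Fin (n + 1) → L) (R : MvPolynomial (Fin (n + 1)) k)
    (l₀ l₁ : Fin (n + 1) → k)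
    (h₀ : ∀ t, fnl y (lin m₀ * up L (X t * R)) = algebraMap k L (l₀ t))
    (h₁ : ∀ t, fnl y (lin m₁ * up L (X t * R)) = algebraMap k L (l₁ t)) :
    ∑ t, (m₁ t * algebraMap k L (l₀ t) - m₀ t * algebraMap k L (l₁ t)) = 0 := by
  have e₁ : ∑ t, m₁ t * algebraMap k L (l₀ t) = fnl y (lin m₁ * (lin m₀ * up L R)) := by
    rw [fnl_lin]
    refine Finset.sum_congr rfl fun t _ => ?_
    rw [← h₀ t, up_mul, up_X, show lin m₀ * (X t * up L R) = X t * (lin m₀ * up L R) by ring]
  have e₂ : ∑ t, m₀ t * algebraMap k L (l₁ t) = fnl y (lin m₀ * (lin m₁ * up L R)) := by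
    rw [fnl_lin]
    refine Finset.sum_congr rfl fun t _ => ?_
    rw [← h₁ t, up_mul, up_X, show lin m₁ * (X t * up L R) = X t * (lin m₁ * up L R) by ring]
  rw [Finset.sum_sub_distrib, e₁, e₂,
    show lin m₁ * (lin m₀ * up L R) = lin m₀ * (lin m₁ * up L R) by ring, sub_self]

/-- the space of the pairs of vectors -/
private def Wsp {k : Type} [Field k] {ρ : Type} (A B : ρ → Fin 3 → k) :
    Submodule k ((Fin 3 → k) × (Fin 3 → k)) where
  carrier := {η | ∀ p : ρ, ∑ t, (η.2 t * A p t - η.1 t * B p t) = 0}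
  add_mem' := by
    intro a b ha hb p
    have h3 := ha p
    have h4 := hb p
    rw [← add_zero (0 : k)]
    nth_rewrite 1 [← h3]
    rw [← h4, ← Finset.sum_add_distrib]
    refine Finset.sum_congr rfl fun t _ => ?_
    simp only [Prod.snd_add, Prod.fst_add, Pi.add_apply]
    ring
  zero_mem' := by
    intro p
    simp
  smul_mem' := by
    intro c a ha p
    have h3 := ha p
    rw [← mul_zero c, ← h3, Finset.mul_sum]
    refine Finset.sum_congr rfl fun t _ => ?_
    simp only [Prod.smul_snd, Prod.smul_fst, Pi.smul_apply, smul_eq_mul]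
    ring

private lemma mem_Wsp {k : Type} [Field k] {ρ : Type} {A B : ρ → Fin 3 → k}
    {η : (Fin 3 → k) × (Fin 3 → k)} :
    η ∈ Wsp A B ↔ ∀ p : ρ, ∑ t, (η.2 t * A p t - η.1 t * B p t) = 0 := Iff.rfl

private lemma small_space {k L : Type} [Field k] [Field L] [Algebra k L] (hLSL : T_LSL) {ρ : Type}
    (A B : ρ → Fin 3 → k) (m₀ m₁ : Fin 3 → L)
    (hcomm : ∀ p, ∑ t, (m₁ t * algebraMap k L (A p t) - m₀ t * algebraMap k L (B p t)) = 0)
    (hfin : ¬ 3 ≤ Module.finrank k (Wsp A B)) :
    ∃ (w₁ w₂ : Fin 3 ⊕ Fin 3 → k) (a b : L), ∀ i, (Sum.elim m₀ m₁ : Fin 3 ⊕ Fin 3 → L) i =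
      a * algebraMap k L (w₁ i) + b * algebraMap k L (w₂ i) := by
  obtain ⟨N, ω, c, hω, -, hωeq, hωv⟩ := hLSL k L (Fin 3 ⊕ Fin 3) ρ
    (fun p => Sum.elim (fun t => -B p t) (fun t => A p t)) (Sum.elim m₀ m₁) (by
      intro p
      rw [Fintype.sum_sum_type]
      simp only [Sum.elim_inl, Sum.elim_inr]
      rw [← hcomm p, ← sub_eq_zero]
      simp only [map_neg]
      rw [← Finset.sum_add_distrib, ← Finset.sum_sub_distrib]
      refine Finset.sum_eq_zero fun t _ => ?_
      ring)
  have hωW : ∀ j, ((fun t => ω j (Sum.inl t), fun t => ω j (Sum.inr t)) :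
      (Fin 3 → k) × (Fin 3 → k)) ∈ Wsp A B := by
    intro j
    rw [mem_Wsp]
    intro p
    have h3 := hωeq j p
    rw [Fintype.sum_sum_type] at h3
    simp only [Sum.elim_inl, Sum.elim_inr] at h3
    rw [← h3, ← Finset.sum_add_distrib]
    refine Finset.sum_congr rfl fun t _ => ?_
    ring
  have hN : N ≤ 2 := by
    have hli : LinearIndependent k (fun j : Fin N => (⟨_, hωW j⟩ : Wsp A B)) := by
      rw [Fintype.linearIndependent_iff] at hω ⊢
      intro a ha
      apply hω
      have h3 := congrArg (Subtype.val) ha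
      rw [AddSubmonoidClass.coe_finsetSum] at h3
      have h4 := congrArg Prod.fst h3
      have h5 := congrArg Prod.snd h3
      rw [Prod.fst_sum] at h4
      rw [Prod.snd_sum] at h5
      ext z
      rcases z with t | t
      · have := congrFun h4 t
        simpa [Finset.sum_apply] using this
      · have := congrFun h5 t
        simpa [Finset.sum_apply] using this
    have := hli.fintype_card_le_finrank
    rw [Fintype.card_fin] at this
    omega
  rcases Nat.lt_or_ge N 1 with h0 | h0
  · obtain rfl : N = 0 := by omega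
    refine ⟨0, 0, 0, 0, fun i => ?_⟩
    rw [hωv i]
    simp
  · rcases Nat.lt_or_ge N 2 with h1 | h1
    · obtain rfl : N = 1 := by omega
      refine ⟨ω 0, 0, c 0, 0, fun i => ?_⟩
      rw [hωv i]
      simp
    · obtain rfl : N = 2 := by omega
      refine ⟨ω 0, ω 1, c 0, c 1, fun i => ?_⟩
      rw [hωv i, Fin.sum_univ_two]

private lemma exists_w {L : Type} [Field L] {m : ℕ} {ν : Fin 2 → Fin m → L} {u : Fin m → L}
    (h : LinearIndependent L ![ν 0, ν 1, u]) :
    ∃ w : Fin m → L, (∀ b, ∑ a, ν b a * w a = 0) ∧ ∑ a, w a * u a ≠ 0 := by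
  classical
  have h1 : u ∉ Submodule.span L (Set.range ![ν 0, ν 1]) := by
    intro hu
    rw [Matrix.range_cons, Matrix.range_cons, Matrix.range_empty, Set.union_empty,
      Set.singleton_union, Submodule.mem_span_pair] at hu
    obtain ⟨a, b, hab⟩ := hu
    rw [Fintype.linearIndependent_iff] at h
    have h2 := h ![a, b, -1] (by
      rw [Fin.sum_univ_three]
      simp only [Matrix.cons_val_zero, Matrix.cons_val_one, Matrix.cons_val]
      rw [← hab, neg_one_smul, add_neg_cancel]) 2
    simp at h2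
  obtain ⟨φ, hφ, hφ0⟩ := Submodule.exists_dual_map_eq_bot_of_notMem h1 inferInstance
  have h3 : ∀ z : Fin m → L, φ z = ∑ a, z a * φ (Pi.single a 1) := by
    intro z
    conv_lhs => rw [pi_eq_sum_univ' z]
    rw [map_sum]
    refine Finset.sum_congr rfl fun a _ => ?_
    rw [map_smul, smul_eq_mul]
  refine ⟨fun a => φ (Pi.single a 1), fun b => ?_, ?_⟩
  · rw [← h3]
    have h4 : φ (ν b) ∈ Submodule.map φ (Submodule.span L (Set.range ![ν 0, ν 1])) := by
      refine Submodule.mem_map_of_mem (Submodule.subset_span ⟨b, ?_⟩)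
      fin_cases b <;> rfl
    rw [hφ0] at h4
    exact (Submodule.mem_bot L).1 h4
  · rw [h3] at hφ
    intro h5
    apply hφ
    rw [← h5]
    exact Finset.sum_congr rfl fun a _ => mul_comm _ _

theorem pf_TERH (hDTT : T_DTT) (hMAT : T_MAT) (hTRI : T_TRIH) (hLSL : T_LSL) (hRK1 : T_RK1)
    (hSG2 : T_SG2) (hSG3 : T_SG3) : T_TERH := by
  intro k L _ _ _ _ _ e m he g f hg hf hgz x y ν hν3 hgrad hyf hxf κ hκ hne
  obtain ⟨w, hw, hwx⟩ := exists_w hν3
  have hx : x ≠ 0 := x_ne hg hwx
  have hν2 : LinearIndependent L ν := by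
    have h1 := hν3.comp ![(0 : Fin 3), 1] (by
      intro i j
      fin_cases i <;> fin_cases j <;> simp)
    have h2 : (![ν 0, ν 1, fun a => eval x (up L (g a))] : Fin 3 → Fin m → L) ∘
        ![(0 : Fin 3), 1] = ν := by
      funext i
      fin_cases i <;> rfl
    rwa [h2] at h1
  have hF : Fun2 (fun a => up L (g a)) x y ν := ⟨hν2, hgrad⟩
  obtain ⟨m₀, μ, hμ, hind, horth, hdet⟩ := hDTT L x hx
  -- the matrix
  let β : (Mon 3 (e + 1) → k) →+ Matrix (Fin 2) (Fin 2) L := AddMonoidHom.mk'
    (fun q => Matrix.of fun i b => fnl (y b) (lin (m₀ i) * up L (frm q))) (by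
      intro q q'
      ext i b
      simp only [Matrix.of_apply, Matrix.add_apply]
      rw [frm_add, up_add, mul_add, fnl_add])
  have hβ : ∀ q i b, β q i b = fnl (y b) (lin (m₀ i) * up L (frm q)) := fun q i b => rfl
  have hdetβ : ∀ q, (β q).det = μ * det3 x y (up L (frm q)) id := by
    intro q
    have h1 := hdet (fun b t => fnl (y b) (X t * up L (frm q)))
    have h2 : β q = Matrix.of fun i b : Fin 2 => ∑ t, m₀ i t * fnl (y b) (X t * up L (frm q)) := by
      ext i b
      rw [hβ, fnl_lin]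
      rfl
    rw [h2, h1]
    rfl
  obtain ⟨A, B, hA, hB, hcases⟩ := hMAT k L (Mon 3 (e + 1) → k) β (μ * κ) (by
      intro c q
      ext i b
      rw [hβ, frm_smul, up_mul, up_C, Matrix.smul_apply, smul_eq_mul, hβ,
        show lin (m₀ i) * (C (algebraMap k L c) * up L (frm q)) =
          C (algebraMap k L c) * (lin (m₀ i) * up L (frm q)) by ring, fnl_C]) (by
      intro q
      obtain ⟨r, hr⟩ := hκ q
      exact ⟨r, by rw [hdetβ, hr]; ring⟩) (by
      obtain ⟨q, hq⟩ := hne
      exact ⟨q, by rw [hdetβ]; exact mul_ne_zero hμ hq⟩)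
  obtain ⟨q₁, hq₁⟩ := hne
  have hq₁' : (A * β q₁ * B).det ≠ 0 := by
    rw [Matrix.det_mul, Matrix.det_mul, hdetβ]
    exact mul_ne_zero (mul_ne_zero hA (mul_ne_zero hμ hq₁)) hB
  -- new data
  set m' : Fin 2 → Fin 3 → L := fun i => fun t => ∑ j, A i j * m₀ j t with hm'
  set y' : Fin 2 → Mon 3 (e + 2) → L := fun b => fun M => ∑ c, y c M * B c b with hy'
  set ν' : Fin 2 → Fin m → L := fun b => fun a => ∑ c, B.transpose b c * ν c a with hν'
  have hm'i : LinearIndependent L m' := indep_comb A hA hind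
  have hm'o : ∀ i, ∑ t, m' i t * x t = 0 := fun i => orth_comb A horth i
  have hm'2 : LinearIndependent L ![m' 0, m' 1] := by rw [eta2]; exact hm'i
  have hF' : Fun2 (fun a => up L (g a)) x y' ν' := by
    refine ⟨indep_comb B.transpose (by rw [Matrix.det_transpose]; exact hB) hF.ind,
      fun b j a => ?_⟩
    rw [hy', hν']
    show fnl (fun M => ∑ c, y c M * B c b) (X j * up L (g a)) =
      -(x j * ∑ c, B.transpose b c * ν c a)
    rw [fnl_comb, Finset.mul_sum, ← Finset.sum_neg_distrib]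
    refine Finset.sum_congr rfl fun c _ => ?_
    rw [hF.grad c j a, Matrix.transpose_apply]
    ring
  have hw' : ∀ b, ∑ a, ν' b a * w a = 0 := by
    intro b
    rw [hν']
    show ∑ a, (∑ c, B.transpose b c * ν c a) * w a = 0
    simp_rw [Finset.sum_mul]
    rw [Finset.sum_comm]
    refine Finset.sum_eq_zero fun c _ => ?_
    have : ∑ a, B.transpose b c * ν c a * w a = B.transpose b c * ∑ a, ν c a * w a := by
      rw [Finset.mul_sum]
      exact Finset.sum_congr rfl fun a _ => by ring
    rw [this, hw c, mul_zero]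
  have hent : ∀ q i b, (A * β q * B) i b = fnl (y' b) (lin (m' i) * up L (frm q)) := by
    intro q i b
    rw [hy', hm', Matrix.mul_apply]
    show _ = fnl (fun M => ∑ c, y c M * B c b)
      (lin (fun t => ∑ j, A i j * m₀ j t) * up L (frm q))
    rw [fnl_comb]
    refine Finset.sum_congr rfl fun c _ => ?_
    rw [fnl_mcomb, Matrix.mul_apply]
    rfl
  rcases hcases with h1 | h2
  · -- case 1
    left
    refine hTRI k L e m g f hg hf hgz x (y' 1) (m' 0) (m' 1) hx hxf ?_ hm'2 (hm'o 0) (hm'o 1)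
      ?_ ?_ ?_ ?_
    · rw [hy', fnl_comb]
      exact Finset.sum_eq_zero fun c _ => by rw [hyf c, zero_mul]
    · intro ζ hζ a
      rw [fnl_lin]
      have : ∑ t, ζ t * fnl (y' 1) (X t * up L (g a)) = -((∑ t, ζ t * x t) * ν' 1 a) := by
        rw [Finset.sum_mul, ← Finset.sum_neg_distrib]
        refine Finset.sum_congr rfl fun t _ => ?_
        rw [hF'.grad 1 t a]
        ring
      rw [this, hζ, zero_mul, neg_zero]
    · intro q
      rw [← hent]
      exact (h1 q).1
    · intro q
      obtain ⟨r, hr⟩ := (h1 q).2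
      exact ⟨r, by rw [← hent]; exact hr⟩
    · refine ⟨q₁, fun h0 => hq₁' ?_⟩
      rw [Matrix.det_fin_two, (h1 q₁).1, hent q₁ 1 1, h0]
      ring
  · -- case 2
    have hk : ∀ (G : MvPolynomial (Fin 3) k), G.IsHomogeneous (e + 1) → ∀ i b, ∃ r : k,
        fnl (y' b) (lin (m' i) * up L G) = algebraMap k L r := by
      intro G hG i b
      obtain ⟨r, hr⟩ := h2 (fun f : Mon 3 (e + 1) => coeff (fs f.1) G) i b
      rw [hent, frm_coeff hG] at hr
      exact ⟨r, hr⟩
    have hXR : ∀ (t : Fin 3) (R : Mon 3 e → k), (X t * frm R : MvPolynomial (Fin 3) k).IsHomogeneous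
        (e + 1) := by
      intro t R
      have := (isHomogeneous_X k t).mul (frm_homog R)
      rwa [add_comm] at this
    choose lam hlam using fun (p : (Mon 3 e → k) × Fin 2) (i : Fin 2) (t : Fin 3) =>
      hk (X t * frm p.1) (hXR t p.1) i p.2
    by_cases hfin : 3 ≤ Module.finrank k (Wsp (fun p => lam p 0) (fun p => lam p 1))
    · left
      obtain ⟨s0, s1, η, hs, hη, hηW⟩ := hRK1 k _ hfin
      rw [mem_Wsp] at hηW
      refine hSG3 k L e m he g hg x y' ν' hF' w hw' hwx (m' 0) (m' 1) hm'2 (hm'o 0) (hm'o 1)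
        (fun Q b => ⟨hk _ (frm_homog Q) 0 b, hk _ (frm_homog Q) 1 b⟩) s0 s1 η hs hη ?_
      intro R b
      rw [fnl_lineta, fnl_lineta]
      have h3 := congrArg (algebraMap k L) (hηW (R, b))
      rw [map_zero, map_sum] at h3
      rw [← sub_eq_zero, ← h3, Finset.mul_sum, Finset.mul_sum, ← Finset.sum_sub_distrib]
      refine Finset.sum_congr rfl fun t _ => ?_
      rw [hlam (R, b) 0 t, hlam (R, b) 1 t]
      simp only [Pi.smul_apply, smul_eq_mul, map_sub, map_mul]
      ring
    · have hcomm : ∀ p : (Mon 3 e → k) × Fin 2,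
          ∑ t, (m' 1 t * algebraMap k L (lam p 0 t) - m' 0 t * algebraMap k L (lam p 1 t)) = 0 := by
        intro p
        exact comm_lem (y' p.2) (m' 0) (m' 1) (frm p.1) (lam p 0) (lam p 1) (hlam p 0) (hlam p 1)
      obtain ⟨w₁, w₂, a, b, hab⟩ := small_space hLSL (fun p => lam p 0) (fun p => lam p 1)
        (m' 0) (m' 1) hcomm hfin
      refine hSG2 k L x m' hm'i hm'o
        (fun i t => if i = 0 then w₁ (Sum.inl t) else w₁ (Sum.inr t))
        (fun i t => if i = 0 then w₂ (Sum.inl t) else w₂ (Sum.inr t)) a b ?_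
      intro i t
      fin_cases i
      · exact hab (Sum.inl t)
      · exact hab (Sum.inr t)

end Pool.Agent.H59.AH
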